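import Mathlib

/-!
Subgroups of `ℤ ^ k`: a vector outside of a subgroup `N` is outside of `N + m ℤ ^ k` for some `m ≥ 1`.
-/

set_option autoImplicit false

open Finset

namespace Pool.Agent.K9h53.LR

variable {k : ℕ}

/-- residual finiteness of the quotients of `ℤ ^ k` -/
theorem sep (N : Submodule ℤ (Fin k → ℤ)) (v : Fin k → ℤ) (hv : v ∉ N) :
    ∃ m : ℕ, 0 < m ∧ ∀ w : Fin k → ℤ, v - (m : ℤ) • w ∉ N := by
  classical
  -- a maximal submodule which contains `N` and does not contain `v`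
  obtain ⟨M, ⟨hNM, hvM⟩, hmax⟩ := WellFounded.has_min (wellFounded_gt (α := Submodule ℤ (Fin k → ℤ)))
    {P | N ≤ P ∧ v ∉ P} ⟨N, le_refl N, hv⟩
  have key : ∀ i : Fin k, ∃ a : ℕ, 0 < a ∧ (a : ℤ) • (Pi.single i 1 : Fin k → ℤ) ∈ M := by
    intro i
    by_contra hcon
    push Not at hcon
    have hmem : ∀ l : ℕ, 0 < l → ∃ n ∈ M, ∃ z : ℤ, v = n + z • ((l : ℤ) • (Pi.single i 1 : Fin k → ℤ)) := by
      intro l hl
      have h1 : v ∈ M ⊔ Submodule.span ℤ {(l : ℤ) • (Pi.single i 1 : Fin k → ℤ)} := by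
        by_contra h2
        refine hmax (M ⊔ Submodule.span ℤ {(l : ℤ) • (Pi.single i 1 : Fin k → ℤ)})
          ⟨hNM.trans le_sup_left, h2⟩ ?_
        refine lt_of_le_of_ne le_sup_left ?_
        intro h3
        apply hcon l hl
        rw [h3]
        exact (le_sup_right : _ ≤ M ⊔ _) (Submodule.mem_span_singleton_self _)
      obtain ⟨n, hn, y, hy, hny⟩ := Submodule.mem_sup.1 h1
      obtain ⟨z, rfl⟩ := Submodule.mem_span_singleton.1 hy
      exact ⟨n, hn, z, hny.symm⟩
    obtain ⟨n₁, hn₁, a, ha⟩ := hmem 1 one_pos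
    have hdvd : ∀ l : ℕ, 0 < l → (l : ℤ) ∣ a := by
      intro l hl
      obtain ⟨n, hn, z, hz⟩ := hmem l hl
      have h4 : (a - z * l) • (Pi.single i 1 : Fin k → ℤ) ∈ M := by
        have h5 : (a - z * l) • (Pi.single i 1 : Fin k → ℤ) = n - n₁ := by
          rw [sub_smul, mul_smul]
          have e1 : a • (Pi.single i 1 : Fin k → ℤ) = v - n₁ := by
            rw [ha]; simp
          have e2 : z • ((l : ℤ) • (Pi.single i 1 : Fin k → ℤ)) = v - n := by
            rw [hz]; simp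
          rw [e1, e2]
          abel
        rw [h5]
        exact M.sub_mem hn hn₁
      have h6 : a - z * l = 0 := by
        by_contra h7
        apply hcon (a - z * l).natAbs (Int.natAbs_pos.2 h7)
        rcases Int.natAbs_eq (a - z * l) with h8 | h8
        · rw [← h8]; exact h4
        · have h9 : (((a - z * l).natAbs : ℕ) : ℤ) = -(a - z * l) := by omega
          rw [h9, neg_smul]
          exact M.neg_mem h4
      exact ⟨z, by linarith [mul_comm z (l : ℤ)]⟩
    have ha0 : a = 0 := by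
      have h1 := hdvd (a.natAbs + 1) (Nat.succ_pos _)
      by_contra h2
      have h3 := Int.le_of_dvd (Int.natCast_pos.2 (Int.natAbs_pos.2 h2)) (Int.dvd_natAbs.2 h1)
      push_cast at h3
      omega
    apply hvM
    rw [ha, ha0, zero_smul, add_zero]
    exact hn₁
  choose a ha0 haM using key
  refine ⟨∏ i, a i, Finset.prod_pos fun i _ => ha0 i, fun w hw => hvM ?_⟩
  have h1 : ((∏ i, a i : ℕ) : ℤ) • w ∈ M := by
    have h2 : w = ∑ i, w i • (Pi.single i 1 : Fin k → ℤ) := by
      conv_lhs => rw [pi_eq_sum_univ' w]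
    rw [h2, Finset.smul_sum]
    refine M.sum_mem fun i _ => ?_
    obtain ⟨b, hb⟩ := Finset.dvd_prod_of_mem a (Finset.mem_univ i)
    rw [hb, smul_comm]
    have h3 : (((a i * b : ℕ) : ℤ)) • (Pi.single i 1 : Fin k → ℤ) =
        (b : ℤ) • ((a i : ℤ) • (Pi.single i 1 : Fin k → ℤ)) := by
      rw [smul_smul]
      congr 1
      push_cast
      ring
    rw [h3]
    exact M.smul_mem _ (M.smul_mem _ (haM i))
  have h2 : v - ((∏ i, a i : ℕ) : ℤ) • w + ((∏ i, a i : ℕ) : ℤ) • w ∈ M := M.add_mem (hNM hw) h1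
  simpa using h2

end Pool.Agent.K9h53.LR
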